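import Pool.Agent.Q328.VD.Gen
import Pool.Agent.H684R3.Smo.Done

set_option autoImplicit false

/-!
# The Skolem Problem for every simple recurrence: few random changes of the digits of the initial values

Let `c` be an integer recurrence of order `d` with squarefree characteristic polynomial (any number of dominant roots), and let
arbitrary initial values with at most `K` digits in base `b` be given. Choose in each of these `d` integers `r` positions of digits,
and replace the digits at these positions by arbitrary other digits. If `C log K ≤ r ≤ K / 2`, then for all but a proportion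
`K ^ (-B)` of the choices of the positions there is a prime `p ≤ K ^ ε` modulo which the resulting sequence has period `(p - 1) / 2`
and no zero term, and one errorless algorithm recognises the sequence as zero-free by its terms modulo the primes `p ≤ K ^ ε`. Here
`ε > 0` and `B` are arbitrary, and `C` depends only on `b`, `c`, `ε`, `B`; the recurrence is not changed.

Proof. The law of helper894 for one integer of which few digits are changed (`Pool.Agent.TH894.ND.engine`) is extended to vectors,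
one coordinate after the other, by conditional means.  For at least `y ^ θ` of the primes `p ≤ y` half of the initial values
modulo `p` are good (starting library `Pool.Agent.H684R3.Smo`); so most choices are good modulo many of the primes `p ≤ K ^ ε`.
-/

namespace Pool.Agent.Results.MP_8d13b5_lc.FewDigitInitialValues

open Pool.Agent.H884R2.Sko Pool.Agent.H692R2.USS Pool.Agent.H684R3.Smo Polynomial
open scoped Classical

/-- The integers `s i * N i` (`s i` is a sign), after the digits of `N i` in base `b` at the positions in `S i` have been replaced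
by the digits `f i`. -/
def changed (b K : ℕ) {d : ℕ} (s : Fin d → ℤ) (N : Fin d → ℕ) (f : Fin d → ℕ → ℕ) (S : Fin d → Finset ℕ) : Fin d → ℤ :=
  fun i => s i * ((∑ j ∈ Finset.range K, (if j ∈ S i then f i j else N i / b ^ j % b) * b ^ j : ℕ) : ℤ)

/-- `s i` are signs, `N i` has at most `K` digits, and `f i j` is a digit different from the digit number `j` of `N i`. -/
def Admissible (b K : ℕ) {d : ℕ} (s : Fin d → ℤ) (N : Fin d → ℕ) (f : Fin d → ℕ → ℕ) : Prop :=
  (∀ i, s i = 1 ∨ s i = -1) ∧ (∀ i, N i < b ^ K) ∧ ∀ i j, f i j < b ∧ f i j ≠ N i / b ^ j % b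

/-- The choices of `r` of the `K` positions for each of `d` integers; their number is `C(K, r) ^ d`. -/
def choices (d r K : ℕ) : Finset (Fin d → Finset ℕ) :=
  Fintype.piFinset (fun _ => Finset.powersetCard r (Finset.range K))

/-- Many primes modulo which half of the initial values are good. -/
theorem many_primes (d : ℕ) (hd : 1 ≤ d) (c : Fin d → ℤ)
    (hc : c ⟨d - 1, by omega⟩ ≠ 0) (hsq : Squarefree ((charPoly c).map (Int.castRingHom ℚ))) :
    ∃ (P : ℕ → Prop) (θ : ℝ), 0 < θ ∧ (∀ p, P p → p.Prime ∧ (1 / 2 : ℝ) * (p : ℝ) ^ (Fintype.card (Fin d)) ≤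
      (Nat.card {a : Fin d → ZMod p // GoodP (fun i => ((c (Fin.rev i) : ℤ) : ZMod p)) a} : ℝ)) ∧
      ∃ y₁ : ℕ, ∀ y : ℕ, y₁ ≤ y → (y : ℝ) ^ θ ≤ (Nat.card {p : ℕ // P p ∧ p ≤ y} : ℝ) := by
  rw [charPoly_eq] at hsq
  have h0 : (chi (fun i => c (Fin.rev i))).coeff 0 ≠ 0 := by
    have := chi_coeff (fun i => c (Fin.rev i)) ⟨0, by omega⟩
    simp only at this
    rw [this, neg_ne_zero]
    have e : Fin.rev (⟨0, by omega⟩ : Fin d) = ⟨d - 1, by omega⟩ := by
      apply Fin.ext
      rw [Fin.val_rev]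
    rw [e]
    exact hc
  obtain ⟨g, p₀, hg, hgood⟩ := t7 d _ hd h0 hsq
  obtain ⟨K, hF, hNF, hK⟩ := splitField_one g hg
  obtain ⟨θ, hθ, y₀, hsup⟩ := @t8 K hF hNF
  refine ⟨fun p => (p.Prime ∧ p₀ ≤ p) ∧ (g.map (Int.castRingHom (ZMod p))).Splits, θ / 2, by positivity,
    fun p hp => ⟨hp.1.1, hgood p hp.1.1 hp.1.2 hp.2⟩, ?_⟩
  obtain ⟨P, hP⟩ : ∃ P : ℕ → Prop, P = fun p => (p.Prime ∧ p₀ ≤ p) ∧ (g.map (Int.castRingHom (ZMod p))).Splits := ⟨_, rfl⟩
  rw [← hP]
  have hev : ∀ᶠ y : ℕ in Filter.atTop, (p₀ : ℝ) + 1 ≤ (y : ℝ) ^ (θ / 2) := by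
    have : Filter.Tendsto (fun y : ℕ => (y : ℝ) ^ (θ / 2)) Filter.atTop Filter.atTop :=
      (tendsto_rpow_atTop (by positivity)).comp tendsto_natCast_atTop_atTop
    exact this.eventually_ge_atTop _
  obtain ⟨y₂, hy₂⟩ := Filter.eventually_atTop.1 hev
  refine ⟨max y₀ y₂, fun y hy => ?_⟩
  have h1 := hsup y ((le_max_left _ _).trans hy)
  have h2 := hy₂ y ((le_max_right _ _).trans hy)
  have hfinP : Finite {p : ℕ // P p ∧ p ≤ y} :=
    Set.Finite.subset (Set.finite_Iic y) (fun p hp => hp.2)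
  have h3 : Nat.card {p : ℕ // (p.Prime ∧ @HasDegOne K hF hNF p) ∧ p ≤ y} ≤
      Nat.card {p : ℕ // P p ∧ p ≤ y} + p₀ := by
    have e : Nat.card ({p : ℕ // P p ∧ p ≤ y} ⊕ Fin p₀) =
        Nat.card {p : ℕ // P p ∧ p ≤ y} + p₀ := by
      rw [Nat.card_sum, Nat.card_eq_fintype_card (α := Fin p₀), Fintype.card_fin]
    rw [← e]
    apply Nat.card_le_card_of_injective (fun p : {p : ℕ // (p.Prime ∧ @HasDegOne K hF hNF p) ∧
      p ≤ y} => if h : p.1 < p₀ then Sum.inr (⟨p.1, h⟩ : Fin p₀) else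
        Sum.inl (⟨p.1, by
          rw [hP]
          exact ⟨⟨p.2.1.1, not_lt.1 h⟩, hK p.1 p.2.1.1 p.2.1.2⟩, p.2.2⟩ :
          {p : ℕ // P p ∧ p ≤ y}))
    intro x x' h
    apply Subtype.ext
    simp only at h
    split_ifs at h with h4 h5 h5
    · simpa using h
    · simpa using h
  have h4 : ((Nat.card {p : ℕ // (p.Prime ∧ @HasDegOne K hF hNF p) ∧ p ≤ y} : ℕ) : ℝ) ≤
      (Nat.card {p : ℕ // P p ∧ p ≤ y} : ℝ) + p₀ := by exact_mod_cast h3
  have h5 : (y : ℝ) ^ θ = (y : ℝ) ^ (θ / 2) * (y : ℝ) ^ (θ / 2) := by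
    rcases Nat.eq_zero_or_pos y with rfl | hy0
    · rw [Nat.cast_zero, Real.zero_rpow hθ.ne', Real.zero_rpow (by positivity)]; ring
    · rw [← Real.rpow_add (by exact_mod_cast hy0)]; congr 1; ring
  have h6 : (0 : ℝ) ≤ (p₀ : ℝ) := by positivity
  nlinarith

theorem result :
    -- one total computable function (`y` is a parameter, `p` the coded input)
    ∃ F : ℕ × (List (ℕ × ℕ) × List (ℕ × ℕ)) → Bool, Computable F ∧
      -- it never errs
      (∀ (y : ℕ) (p : List (ℕ × ℕ) × List (ℕ × ℕ)) (u : ℕ → ℤ), IsLRS p u →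
        F (y, p) = true → ∀ n, u n ≠ 0) ∧
      -- every recurrence with squarefree characteristic polynomial, every base `b`, all exponents `ε` and `B`
      ∀ (d : ℕ) (hd : 1 ≤ d) (c : Fin d → ℤ), c ⟨d - 1, by omega⟩ ≠ 0 →
        Squarefree ((charPoly c).map (Int.castRingHom ℚ)) →
        ∀ b : ℕ, 2 ≤ b → ∀ ε B : ℝ, 0 < ε → 0 < B →
        ∃ C : ℝ, 0 < C ∧ ∃ K₀ : ℕ, ∀ K : ℕ, K₀ ≤ K → ∀ r : ℕ, C * Real.log K ≤ r → 2 * r ≤ K →
        -- all initial values with at most `K` digits and all new digits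
        ∀ (s : Fin d → ℤ) (N : Fin d → ℕ) (f : Fin d → ℕ → ℕ), Admissible b K s N f →
          ∃ E ⊆ choices d r K,
            -- the exceptional set is small
            (E.card : ℝ) ≤ (K : ℝ) ^ (-B) * (K.choose r : ℝ) ^ d ∧
            ∀ S ∈ choices d r K \ E,
              -- outside it the algorithm recognises that there is no zero
              F (⌊(K : ℝ) ^ ε⌋₊, (code c, code (changed b K s N f S))) = true ∧
              -- because of a prime `p ≤ K ^ ε`
              ∃ p : ℕ, p.Prime ∧ (p : ℝ) ≤ (K : ℝ) ^ ε ∧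
                ∀ u, IsSeq c (changed b K s N f S) u →
                  (∀ n, (p : ℤ) ∣ u (n + (p - 1) / 2) - u n) ∧ ∀ n, ¬ (p : ℤ) ∣ u n := by
  obtain ⟨F, hF, hFe⟩ := t10
  refine ⟨F, hF, fun y p u hu ht n hn => ?_, fun d hd c hc hsq b hb ε B hε hB => ?_⟩
  · obtain ⟨q, _, _, hq⟩ := (hFe y p u hu).1 ht
    apply hq n
    rw [hn]
    exact dvd_zero _
  · obtain ⟨P, θ, hθ, hG, hP⟩ := many_primes d hd c hc hsq
    obtain ⟨C, hC, K₀, h⟩ := Pool.Agent.Q328.VD.good b hb B ε (1 / 2) θ hB hε (by norm_num) hθ (Fin d) P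
      (fun p => {a | GoodP (fun i => ((c (Fin.rev i) : ℤ) : ZMod p)) a}) hG hP
    refine ⟨C, hC, K₀, fun K hK r hr hrK s N f hA => ?_⟩
    have h1 := h K hK r hr hrK N hA.2.1 s hA.1 f hA.2.2
    rw [Fintype.card_fin] at h1
    refine ⟨(choices d r K).filter (fun S => ¬ ∃ p : ℕ, p.Prime ∧ (p : ℝ) ≤ (K : ℝ) ^ ε ∧
                ∀ u, IsSeq c (changed b K s N f S) u →
                  (∀ n, (p : ℤ) ∣ u (n + (p - 1) / 2) - u n) ∧ ∀ n, ¬ (p : ℤ) ∣ u n), Finset.filter_subset _ _, ?_, ?_⟩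
    · refine le_trans (Nat.cast_le.2 (Finset.card_le_card ?_)) h1
      intro S hS
      rw [Finset.mem_filter] at hS ⊢
      refine ⟨hS.1, fun p hp hpK hmem => hS.2 ⟨p, (hG p hp).1, hpK, fun u hu => good_cert c _ p ?_ u hu⟩⟩
      exact hmem
    · intro S hS
      rw [Finset.mem_sdiff, Finset.mem_filter, not_and, not_not] at hS
      have hcert := hS.2 hS.1
      refine ⟨?_, hcert⟩
      obtain ⟨p, hp, hpA, hpu⟩ := hcert
      obtain ⟨u, hu⟩ := exists_isSeq c (changed b K s N f S)
      rw [hFe _ _ u (isLRS_code hd _ _ hc hu)]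
      exact ⟨p, Nat.le_floor hpA, hp, (hpu u hu).2⟩

end Pool.Agent.Results.MP_8d13b5_lc.FewDigitInitialValues
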